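import Pool.Agent.Work.MP_611b97_al.Doubling

/-!
# Extending invariant orders over a periodic quotient: subgroups generated by two conjugates

Partial result on MP_611b97_al (Q1).
-/

set_option autoImplicit false

namespace Pool.Agent.Results.MP_611b97_al.ConjugatePairs

universe u

/-- In every central extension of a subgroup of `Q` by a torsion-free group, the elements of
finite order are closed under multiplication. -/
def TorsionCloses (Q : Type u) [Group Q] : Prop :=
  ∀ (Γ : Type u) [Group Γ] (π : Γ →* Q), π.ker ≤ Subgroup.center Γ →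
    (∀ a ∈ π.ker, ∀ n : ℕ, 0 < n → a ^ n = 1 → a = 1) →
    ∀ x y : Γ, IsOfFinOrder x → IsOfFinOrder y → IsOfFinOrder (x * y)

/-- The subgroup generated by `g` and its conjugate `t g t⁻¹`. -/
def conjPair {Q : Type u} [Group Q] (g t : Q) : Subgroup Q :=
  Subgroup.closure {g, t * g * t⁻¹}

/-- Let `G` be torsion-free and let `H` be a normal subgroup (soluble or not) such that `G ⧸ H`
is periodic. Suppose that along every descending chain of subgroups `conjPair (g i) (t i)` of
`G ⧸ H` with `g (i + 1)`, `t (i + 1)` in `conjPair (g i) (t i)` some `conjPair (g i) (t i)` is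
finite or has the property `TorsionCloses` (for instance: any two conjugate elements of `G ⧸ H`
generate a finite subgroup). Then every `G`-invariant order on `H` extends to a bi-invariant total
order on `G`. -/
theorem result :
    ∀ (G : Type u) [Group G] (H : Subgroup G) [H.Normal],
      (∀ g : G, g ≠ 1 → ¬ IsOfFinOrder g) →
      (∀ x : G ⧸ H, IsOfFinOrder x) →
      (∀ g t : ℕ → G ⧸ H,
        (∀ i, g (i + 1) ∈ conjPair (g i) (t i) ∧ t (i + 1) ∈ conjPair (g i) (t i)) →
        ∃ i, (conjPair (g i) (t i) : Set (G ⧸ H)).Finite ∨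
          TorsionCloses (conjPair (g i) (t i))) →
      ∀ P : Set G, P ⊆ (H : Set G) →
        (∀ a ∈ P, ∀ b ∈ P, a * b ∈ P) →
        (1 : G) ∉ P →
        (∀ h ∈ H, h ≠ 1 → h ∈ P ∨ h⁻¹ ∈ P) →
        (∀ g : G, ∀ a ∈ P, g * a * g⁻¹ ∈ P) →
        ∃ Q : Set G,
          (∀ a ∈ Q, ∀ b ∈ Q, a * b ∈ Q) ∧
          (1 : G) ∉ Q ∧
          (∀ g : G, g ≠ 1 → g ∈ Q ∨ g⁻¹ ∈ Q) ∧
          (∀ g : G, ∀ a ∈ Q, g * a * g⁻¹ ∈ Q) ∧
          (∀ h ∈ H, (h ∈ Q ↔ h ∈ P)) := by
  intro G _ H _ htf hper hch P hsub hmul hone htot hinv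
  have hT : MP611b97.TorsClosed (G ⧸ H) :=
    MP611b97.torsClosed_of_chains hper fun g t h1 h2 => by
      obtain ⟨i, hi⟩ := hch g t fun i => ⟨h1 i, h2 i⟩
      rcases hi with hi | hi
      · exact ⟨i, MP611b97.torsRel_of_finite hi⟩
      · exact ⟨i, (MP611b97.torsRel_iff _).2 hi⟩
  have hc : MP611b97.Cone H P := ⟨hsub, hmul, hone, htot, hinv⟩
  have tf : MP611b97.TF G := by
    intro g n hn hg
    by_contra hne
    exact htf g hne (isOfFinOrder_iff_pow_eq_one.2 ⟨n, hn, hg⟩)
  have hper' : ∀ g : G, g ∈ MP611b97.iso H := by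
    intro g
    obtain ⟨n, hn, h⟩ := isOfFinOrder_iff_pow_eq_one.1 (hper (QuotientGroup.mk' H g))
    refine ⟨n, hn, ?_⟩
    rw [← map_pow] at h
    exact (QuotientGroup.eq_one_iff _).1 h
  refine ⟨{g | MP611b97.Pos P g}, ?_, ?_, ?_, ?_, ?_⟩
  · intro a ha b hb
    exact MP611b97.pos_mul_of_torsClosed tf hc hper' hT ha hb
  · intro h
    exact hc.Pos_ne_one h rfl
  · intro g hg
    rcases hc.Pos_trichotomy tf (hper' g) with h | h | h
    · exact absurd h hg
    · exact Or.inl h
    · exact Or.inr h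
  · intro g a ha
    exact hc.Pos_conj g ha
  · intro h hh
    constructor
    · intro h'
      have := hc.pow_mem_of_Pos tf h' one_pos (by simpa using hh)
      simpa using this
    · intro h'
      exact ⟨1, one_pos, by simpa using h'⟩

end Pool.Agent.Results.MP_611b97_al.ConjugatePairs
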