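import Pool.Agent.Work.MP_611b97_al.Final

/-!
# Extending invariant orders over a periodic Engel quotient: convex steps

Partial result on MP_611b97_al (Q1).
-/

set_option autoImplicit false

namespace Pool.Agent.Results.MP_611b97_al.ConvexSteps

/-- `C` is a convex subgroup of the subgroup `A`, where `P` is the set of elements greater than
one of an order: `C` is contained in `A`, and every `x ∈ A` with `1 < x < c` for some `c ∈ C`
lies in `C`. -/
def IsConvexIn {G : Type*} [Group G] (P : Set G) (A C : Subgroup G) : Prop :=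
  C ≤ A ∧ ∀ c ∈ C, ∀ x ∈ P, x ∈ A → x⁻¹ * c ∈ P → x ∈ C

/-- The two kinds of steps above a convex subgroup `C` of `A`: a convex subgroup `D > C` of `A`
normalised by `K` such that every two-generator subgroup of `D` is nilpotent modulo `C`, or a
least convex subgroup of `A` that properly contains `C`. -/
def HasStep {G : Type*} [Group G] (P : Set G) (K A C : Subgroup G) : Prop :=
  (∃ D : Subgroup G, C < D ∧ IsConvexIn P A D ∧ (∀ k ∈ K, ∀ d ∈ D, k * d * k⁻¹ ∈ D) ∧
    ∀ a ∈ D, ∀ b ∈ D, ∃ n : ℕ, (Subgroup.closure {a, b}).lowerCentralSeries n ≤ C) ∨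
  (∃ D : Subgroup G, C < D ∧ IsConvexIn P A D ∧
    ∀ E : Subgroup G, IsConvexIn P A E → C < E → D ≤ E)

open MP611b97 in
theorem transfer {G : Type*} [Group G] {H K : Subgroup G} [hH : H.Normal] {P : Set G}
    (tf : TF G) (hc : Cone H P) (hper : ∀ g : G, g ∈ iso H)
    (heng : ∀ x g : G, ∃ n : ℕ, (fun z : G => z⁻¹ * g⁻¹ * z * g)^[n] x ∈ H)
    (hK : ∀ C : Subgroup G, IsConvexIn P (K ⊓ H) C → C < K ⊓ H →
      (∀ k ∈ K, ∀ c ∈ C, k * c * k⁻¹ ∈ C) → HasStep P K (K ⊓ H) C)
    {x y : G} (hx : x ∈ K) (hy : y ∈ K) (hpx : Pos P x) (hpy : Pos P y) : Pos P (x * y) := by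
  have tfK : TF K := by
    intro g n hn hg
    apply Subtype.ext
    apply tf (g : G) n hn
    have := congrArg (fun z : K => (z : G)) hg
    simpa using this
  have hcK : Cone (H.subgroupOf K) {k : K | (k : G) ∈ P} := by
    refine ⟨?_, ?_, ?_, ?_, ?_⟩
    · intro l hl
      exact hc.sub hl
    · intro u hu v hv
      exact hc.mul _ hu _ hv
    · exact hc.one
    · intro h hh hne
      have := hc.tot (h : G) hh (by intro e; exact hne (Subtype.ext e))
      simpa using this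
    · intro g u hu
      exact hc.inv _ _ hu
  have hengK : ∀ u g : K, ∃ n : ℕ, (fun z : K => z⁻¹ * g⁻¹ * z * g)^[n] u ∈ H.subgroupOf K := by
    intro u g
    obtain ⟨n, hn⟩ := heng (u : G) (g : G)
    refine ⟨n, ?_⟩
    rw [Subgroup.mem_subgroupOf]
    have := iter_map K.subtype g n u
    simp only [Subgroup.coe_subtype] at this
    rw [this]
    exact hn
  have hperK : ∀ g : K, g ∈ iso (H.subgroupOf K) := by
    intro g
    obtain ⟨n, hn, h⟩ := hper (g : G)
    exact ⟨n, hn, h⟩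
  -- translation of convexity
  have hup : ∀ C' : Subgroup K, Cvx (H.subgroupOf K) {k : K | (k : G) ∈ P} C' →
      IsConvexIn P (K ⊓ H) (C'.map K.subtype) := by
    rintro C' ⟨h1, h2⟩
    constructor
    · rintro _ ⟨c, hc', rfl⟩
      exact ⟨c.2, h1 hc'⟩
    · rintro _ ⟨c, hc', rfl⟩ x hx hxA hxc
      exact ⟨⟨x, hxA.1⟩, h2 c hc' ⟨x, hxA.1⟩ hx hxc, rfl⟩
  have hdown : ∀ D : Subgroup G, IsConvexIn P (K ⊓ H) D →
      Cvx (H.subgroupOf K) {k : K | (k : G) ∈ P} (D.subgroupOf K) := by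
    rintro D ⟨h1, h2⟩
    constructor
    · intro d hd
      exact (h1 hd).2
    · intro c hc' x hx hxc
      exact h2 (c : G) hc' (x : G) hx ⟨x.2, hc.sub hx⟩ hxc
  have hlt1 : ∀ (C' : Subgroup K) (D : Subgroup G), D ≤ K → C'.map K.subtype < D →
      C' < D.subgroupOf K := by
    intro C' D hDK hlt
    refine lt_of_le_of_ne ?_ ?_
    · intro c hc'
      exact hlt.le ⟨c, hc', rfl⟩
    · rintro rfl
      apply hlt.ne
      rw [Subgroup.map_subgroupOf_eq_of_le hDK]
  have hg := good_all tfK hcK hperK hengK (by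
    intro C' hC'n hC' hlt
    have h1 : C'.map K.subtype < K ⊓ H := by
      refine lt_of_le_of_ne (hup C' hC').1 ?_
      intro e
      apply hlt.ne
      refine le_antisymm hlt.le ?_
      intro h hh
      have : (h : G) ∈ C'.map K.subtype := by
        rw [e]
        exact ⟨h.2, hh⟩
      obtain ⟨c, hc', e'⟩ := this
      have : c = h := Subtype.ext e'
      rwa [← this]
    have h2 : ∀ k ∈ K, ∀ c ∈ C'.map K.subtype, k * c * k⁻¹ ∈ C'.map K.subtype := by
      rintro k hk _ ⟨c, hc', rfl⟩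
      exact ⟨⟨k, hk⟩ * c * ⟨k, hk⟩⁻¹, hC'n.conj_mem c hc' ⟨k, hk⟩, rfl⟩
    rcases hK _ (hup C' hC') h1 h2 with ⟨D, hD1, hD2, hD3, hD4⟩ | ⟨D, hD1, hD2, hD3⟩
    · left
      have hDK : D ≤ K := fun d hd => (hD2.1 hd).1
      refine ⟨D.subgroupOf K, ⟨?_⟩, hdown D hD2, hlt1 C' D hDK hD1, ?_⟩
      · intro n hn g
        exact hD3 g g.2 n hn
      · intro a ha b hb
        obtain ⟨n, hn⟩ := hD4 a ha b hb
        refine ⟨n, ?_⟩
        rw [← Subgroup.map_subtype_le_map_subtype, Subgroup.map_lowerCentralSeries,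
          MonoidHom.map_closure, Set.image_pair]
        exact hn
    · right
      have hDK : D ≤ K := fun d hd => (hD2.1 hd).1
      refine ⟨D.subgroupOf K, hdown D hD2, hlt1 C' D hDK hD1, ?_⟩
      intro E' hE' hlt'
      have h3 : C'.map K.subtype < E'.map K.subtype := by
        refine lt_of_le_of_ne (Subgroup.map_mono hlt'.le) ?_
        intro e
        exact hlt'.ne (Subgroup.map_injective K.subtype_injective e)
      have h4 := hD3 _ (hup E' hE') h3
      intro d hd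
      obtain ⟨e, he, e'⟩ := h4 hd
      have : e = d := Subtype.ext e'
      rwa [← this])
  have hfin := hg.pos ⟨x, hx⟩ (hperK _) ⟨y, hy⟩ (hperK _)
    (by obtain ⟨n, hn, h⟩ := hpx; exact ⟨n, hn, h⟩)
    (by obtain ⟨n, hn, h⟩ := hpy; exact ⟨n, hn, h⟩)
  obtain ⟨n, hn, h⟩ := hfin
  exact ⟨n, hn, h⟩

/-- Let `G` be torsion-free and let `H` be a normal subgroup such that `G ⧸ H` is periodic and
Engel, and let `P` be the positive cone of a `G`-invariant order on `H`. Suppose that any two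
elements of `G` lie in a subgroup `K` such that every convex subgroup `C < K ⊓ H` of `K ⊓ H` that
is normalised by `K` has one of the two kinds of steps of `HasStep`. Then the order extends
to a bi-invariant total order on `G`. -/
theorem result :
    ∀ (G : Type*) [Group G] (H : Subgroup G) [H.Normal],
      (∀ g : G, g ≠ 1 → ¬ IsOfFinOrder g) →
      (∀ x : G ⧸ H, IsOfFinOrder x) →
      (∀ x y : G ⧸ H, ∃ n : ℕ, (fun z : G ⧸ H => z⁻¹ * y⁻¹ * z * y)^[n] x = 1) →
      ∀ P : Set G, P ⊆ (H : Set G) →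
        (∀ a ∈ P, ∀ b ∈ P, a * b ∈ P) →
        (1 : G) ∉ P →
        (∀ h ∈ H, h ≠ 1 → h ∈ P ∨ h⁻¹ ∈ P) →
        (∀ g : G, ∀ a ∈ P, g * a * g⁻¹ ∈ P) →
        (∀ x y : G, ∃ K : Subgroup G, x ∈ K ∧ y ∈ K ∧
          ∀ C : Subgroup G, IsConvexIn P (K ⊓ H) C → C < K ⊓ H →
            (∀ k ∈ K, ∀ c ∈ C, k * c * k⁻¹ ∈ C) → HasStep P K (K ⊓ H) C) →
        ∃ Q : Set G,
          (∀ a ∈ Q, ∀ b ∈ Q, a * b ∈ Q) ∧
          (1 : G) ∉ Q ∧
          (∀ g : G, g ≠ 1 → g ∈ Q ∨ g⁻¹ ∈ Q) ∧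
          (∀ g : G, ∀ a ∈ Q, g * a * g⁻¹ ∈ Q) ∧
          (∀ h ∈ H, (h ∈ Q ↔ h ∈ P)) := by
  intro G _ H _ htf hper heng P hsub hmul hone htot hinv hstep
  have hc : MP611b97.Cone H P := ⟨hsub, hmul, hone, htot, hinv⟩
  have tf : MP611b97.TF G := by
    intro g n hn hg
    by_contra hne
    exact htf g hne (isOfFinOrder_iff_pow_eq_one.2 ⟨n, hn, hg⟩)
  have hper' : ∀ g : G, g ∈ MP611b97.iso H := by
    intro g
    obtain ⟨n, hn, h⟩ := isOfFinOrder_iff_pow_eq_one.1 (hper (QuotientGroup.mk' H g))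
    refine ⟨n, hn, ?_⟩
    rw [← map_pow] at h
    exact (QuotientGroup.eq_one_iff _).1 h
  have heng' : ∀ x g : G, ∃ n : ℕ, (fun z : G => z⁻¹ * g⁻¹ * z * g)^[n] x ∈ H := by
    intro x g
    obtain ⟨n, hn⟩ := heng (QuotientGroup.mk' H x) (QuotientGroup.mk' H g)
    refine ⟨n, ?_⟩
    rw [← MP611b97.iter_map (QuotientGroup.mk' H)] at hn
    exact (QuotientGroup.eq_one_iff _).1 hn
  refine ⟨{g | MP611b97.Pos P g}, ?_, ?_, ?_, ?_, ?_⟩
  · intro a ha b hb
    obtain ⟨K, hxK, hyK, hK⟩ := hstep a b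
    exact transfer tf hc hper' heng' hK hxK hyK ha hb
  · intro h
    exact hc.Pos_ne_one h rfl
  · intro g hg
    rcases hc.Pos_trichotomy tf (hper' g) with h | h | h
    · exact absurd h hg
    · exact Or.inl h
    · exact Or.inr h
  · intro g a ha
    exact hc.Pos_conj g ha
  · intro h hh
    constructor
    · intro h'
      have := hc.pow_mem_of_Pos tf h' one_pos (by simpa using hh)
      simpa using this
    · intro h'
      exact ⟨1, one_pos, by simpa using h'⟩

end Pool.Agent.Results.MP_611b97_al.ConvexSteps
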