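import Pool.Agent.Work.MP_611b97_al.Crit
import Pool.Agent.Work.MP_611b97_al.Res

/-!
# Extending invariant orders: the answer for residually finite quotients in terms of central
extensions

Partial result on MP_611b97_al (Q1).
-/

set_option autoImplicit false

namespace Pool.Agent.Results.MP_611b97_al.ResidualQuotients

/-- Every `G`-invariant order on the normal subgroup `H` extends to a bi-invariant total order
on `G` (orders are given by their sets of elements greater than one). -/
def OrdersExtend (G : Type) [Group G] (H : Subgroup G) : Prop :=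
  ∀ P : Set G, P ⊆ (H : Set G) →
    (∀ a ∈ P, ∀ b ∈ P, a * b ∈ P) →
    (1 : G) ∉ P →
    (∀ h ∈ H, h ≠ 1 → h ∈ P ∨ h⁻¹ ∈ P) →
    (∀ g : G, ∀ a ∈ P, g * a * g⁻¹ ∈ P) →
    ∃ R : Set G,
      (∀ a ∈ R, ∀ b ∈ R, a * b ∈ R) ∧
      (1 : G) ∉ R ∧
      (∀ g : G, g ≠ 1 → g ∈ R ∨ g⁻¹ ∈ R) ∧
      (∀ g : G, ∀ a ∈ R, g * a * g⁻¹ ∈ R) ∧
      (∀ h ∈ H, (h ∈ R ↔ h ∈ P))

/-- In every central extension of a subgroup of `Q` by a torsion-free group, the elements of
finite order are closed under multiplication. -/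
def TorsionCloses (Q : Type) [Group Q] : Prop :=
  ∀ (Γ : Type) [Group Γ] (π : Γ →* Q), π.ker ≤ Subgroup.center Γ →
    (∀ a ∈ π.ker, ∀ n : ℕ, 0 < n → a ^ n = 1 → a = 1) →
    ∀ x y : Γ, IsOfFinOrder x → IsOfFinOrder y → IsOfFinOrder (x * y)

/-- Let `Q` be a periodic group whose two-generator subgroups are residually finite-soluble (for
instance a residually finite-soluble one). The following are equivalent:
every invariant order extends for all torsion-free `G` and normal `H` with `G ⧸ H`
isomorphic to a subgroup of `Q`; the same for soluble `H`; the same for metabelian `H`; in every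
central extension of a subgroup of `Q` by a torsion-free group the elements of finite order are
closed under multiplication. -/
theorem result :
    ∀ (Q : Type) [Group Q],
      (∀ q : Q, IsOfFinOrder q) →
      (∀ a b : Q, ∀ q : Subgroup.closure {a, b}, q ≠ 1 → ∃ (F : Type) (_ : Group F),
        Finite F ∧ Group.IsSolvable F ∧ ∃ f : Subgroup.closure {a, b} →* F, f q ≠ 1) →
      [(∀ (G : Type) [Group G] (H : Subgroup G) [H.Normal],
          (∀ g : G, g ≠ 1 → ¬ IsOfFinOrder g) →
          (∃ f : G ⧸ H →* Q, Function.Injective f) → OrdersExtend G H),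
        (∀ (G : Type) [Group G] (H : Subgroup G) [H.Normal],
          (∀ g : G, g ≠ 1 → ¬ IsOfFinOrder g) → Group.IsSolvable H →
          (∃ f : G ⧸ H →* Q, Function.Injective f) → OrdersExtend G H),
        (∀ (G : Type) [Group G] (H : Subgroup G) [H.Normal],
          (∀ g : G, g ≠ 1 → ¬ IsOfFinOrder g) → derivedSeries H 2 = ⊥ →
          (∃ f : G ⧸ H →* Q, Function.Injective f) → OrdersExtend G H),
        TorsionCloses Q].TFAE := by
  intro Q _ hper hres
  tfae_have 1 → 2 := by
    intro h G _ H _ htf _ hf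
    exact h G H htf hf
  tfae_have 2 → 3 := by
    intro h G _ H _ htf hmet hf
    exact h G H htf ⟨⟨2, hmet⟩⟩ hf
  tfae_have 4 → 1 := by
    rintro hT G _ H _ htf ⟨f, hf⟩ P hsub hmul hone htot hinv
    have hc : MP611b97.Cone H P := ⟨hsub, hmul, hone, htot, hinv⟩
    have tf : MP611b97.TF G := by
      intro g n hn hg
      by_contra hne
      exact htf g hne (isOfFinOrder_iff_pow_eq_one.2 ⟨n, hn, hg⟩)
    have hper' : ∀ g : G, g ∈ MP611b97.iso H := by
      intro g
      obtain ⟨n, hn, h⟩ := isOfFinOrder_iff_pow_eq_one.1 (hper (f (QuotientGroup.mk' H g)))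
      refine ⟨n, hn, ?_⟩
      rw [← map_pow, ← map_pow] at h
      have h2 : QuotientGroup.mk' H (g ^ n) = 1 := by
        apply hf
        rw [h, map_one]
      exact (QuotientGroup.eq_one_iff _).1 h2
    have hT' : MP611b97.TorsClosed (G ⧸ H) := by
      intro Γ _ π h1 h2 x y hx hy
      have hk : (f.comp π).ker = π.ker := by
        ext g
        rw [MonoidHom.mem_ker, MonoidHom.mem_ker, MonoidHom.comp_apply]
        constructor
        · intro h
          apply hf
          rw [h, map_one]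
        · intro h
          rw [h, map_one]
      exact hT Γ (f.comp π) (hk ▸ h1) (by rw [hk]; exact h2) x y hx hy
    refine ⟨{g | MP611b97.Pos P g}, ?_, ?_, ?_, ?_, ?_⟩
    · intro a ha b hb
      exact MP611b97.pos_mul_of_torsClosed tf hc hper' hT' ha hb
    · intro h
      exact hc.Pos_ne_one h rfl
    · intro g hg
      rcases hc.Pos_trichotomy tf (hper' g) with h | h | h
      · exact absurd h hg
      · exact Or.inl h
      · exact Or.inr h
    · intro g a ha
      exact hc.Pos_conj g ha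
    · intro h hh
      constructor
      · intro h'
        have := hc.pow_mem_of_Pos tf h' one_pos (by simpa using hh)
        simpa using this
      · intro h'
        exact ⟨1, one_pos, by simpa using h'⟩
  tfae_have 3 → 4 := by
    intro hmeta Γ₀ _ π₀ hcen₀ htf₀ x₀ y₀ hx₀ hy₀
    by_contra hxy₀
    -- restrict to the subgroup generated by the two images
    set E : Subgroup Q := Subgroup.closure {π₀ x₀, π₀ y₀} with hE
    set Γ : Subgroup Γ₀ := E.comap π₀ with hΓ
    set π : Γ →* E := (π₀.comp Γ.subtype).codRestrict E (fun g => g.2) with hπ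
    have hπk : ∀ g : Γ, g ∈ π.ker → (g : Γ₀) ∈ π₀.ker := by
      intro g hg
      exact congrArg Subtype.val (show π g = 1 from hg)
    have hcen : π.ker ≤ Subgroup.center Γ := by
      intro g hg
      rw [Subgroup.mem_center_iff]
      intro h
      apply Subtype.ext
      exact Subgroup.mem_center_iff.1 (hcen₀ (hπk g hg)) (h : Γ₀)
    have htf : ∀ a ∈ π.ker, ∀ n : ℕ, 0 < n → a ^ n = 1 → a = 1 := by
      intro a ha n hn han
      apply Subtype.ext
      apply htf₀ _ (hπk a ha) n hn
      have := congrArg Subtype.val han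
      simpa using this
    have hx₁ : x₀ ∈ Γ := Subgroup.mem_comap.2 (Subgroup.subset_closure (by simp))
    have hy₁ : y₀ ∈ Γ := Subgroup.mem_comap.2 (Subgroup.subset_closure (by simp))
    set x : Γ := ⟨x₀, hx₁⟩ with hxd
    set y : Γ := ⟨y₀, hy₁⟩ with hyd
    obtain ⟨a, ha, hxa₀⟩ := isOfFinOrder_iff_pow_eq_one.1 hx₀
    obtain ⟨b, hb, hyb₀⟩ := isOfFinOrder_iff_pow_eq_one.1 hy₀
    obtain ⟨c, hc, hzc₀⟩ := isOfFinOrder_iff_pow_eq_one.1 (hper (π₀ (x₀ * y₀)))
    have hxa : x ^ a = 1 := Subtype.ext hxa₀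
    have hyb : y ^ b = 1 := Subtype.ext hyb₀
    have hzc : π (x * y) ^ c = 1 := Subtype.ext hzc₀
    set n := a * b * c with hn
    have hn0 : 0 < n := Nat.mul_pos (Nat.mul_pos ha hb) hc
    have hxn : x ^ n = 1 := by rw [hn, mul_assoc, pow_mul, hxa, one_pow]
    have hyn : y ^ n = 1 := by rw [hn, mul_comm a b, mul_assoc, pow_mul, hyb, one_pow]
    have hzn : π ((x * y) ^ n) = 1 := by
      rw [map_pow, hn, mul_comm, pow_mul, hzc, one_pow]
    have hd1 : (x * y) ^ n ≠ 1 := by
      intro h
      apply hxy₀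
      refine isOfFinOrder_iff_pow_eq_one.2 ⟨n, hn0, ?_⟩
      have := congrArg Subtype.val h
      simpa [hxd, hyd] using this
    obtain ⟨PA, a0, a1, a2, a3, a4⟩ :=
      MP611b97.exists_cone_central hcen htf (show (x * y) ^ n ∈ π.ker from hzn) hd1
    obtain ⟨L, F, _, _, Φ, Ψ, hΦ, hΨ, hL, hmet⟩ := MP611b97.res_cover (Q := E) (by
      intro q hq
      obtain ⟨F, _, h1, h2, h3⟩ := hres _ _ q hq
      exact ⟨F, inferInstance, h1, h2.solvable, h3⟩)
    obtain ⟨PL, l1, l2, l3, l4⟩ := id hL
    obtain ⟨s0, s1, s2, s3, s4⟩ := MP611b97.lexP_spec (Φ := Φ) (Ψ := Ψ) hcen a1 a2 a3 a0 l1 l2 l3 l4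
    obtain ⟨R, r1, r2, r3, r4, r5⟩ := hmeta (MP611b97.fib π Φ Ψ) (MP611b97.fpr π Φ Ψ).ker
      (by
        intro g hg hfin
        obtain ⟨k, hk, hgk⟩ := isOfFinOrder_iff_pow_eq_one.1 hfin
        exact hg (MP611b97.fib_tf hΨ hL htf g k hk hgk))
      (MP611b97.fib_metab hcen hmet)
      ⟨E.subtype.comp (QuotientGroup.kerLift (MP611b97.fpr π Φ Ψ)),
        E.subtype_injective.comp (QuotientGroup.kerLift_injective (MP611b97.fpr π Φ Ψ))⟩
      (MP611b97.lexP π Φ Ψ PA PL) s0 s1 s2 s3 s4
    exact MP611b97.no_extension hΦ hxn hyn a4 hzn R r1 r2 r3 r4 r5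
  tfae_finish

end Pool.Agent.Results.MP_611b97_al.ResidualQuotients
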